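import Pool.Agent.Q48.RD.Ends

/-!
# Four almost primes between the squares of two primes, at symmetric positions with restricted digits

Let `5 ≤ p < q` be primes (for example consecutive primes). We consider the four numbers `p ^ 2 + m`, `p ^ 2 + m + 6`,
`q ^ 2 - m - 6`, `q ^ 2 - m`, which are different and between `p ^ 2` and `q ^ 2` for `1 ≤ m`, `p ^ 2 + 2 (m + 6) < q ^ 2`.

Let `g ≥ 2` be a base and `K` a large number of digits. For every `i < K` let `A i` be an arbitrary set of digits, such that the number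
`|A 0| ⋯ |A (K - 1)|` of the integers `t < g ^ K` whose `i`-th digit belongs to `A i` for all `i < K` is at least `exp (- c K) g ^ K`
(`Rich`). Let `q ^ 2 ≤ g ^ (E K)` and `m₀ ≥ 1` be arbitrary with `p ^ 2 + 2 (m₀ + g ^ K + 6) ≤ q ^ 2`, so that the length `g ^ K` of the
interval of the `m = m₀ + t` may be an arbitrarily small power of `p`.

The number of the `m = m₀ + t` with these `t` for which the four numbers have at most `r` prime factors, all larger than
`g ^ (K / r)`, is at least `κ V |A 0| ⋯ |A (K - 1)|`, and also at least `κ |A 0| ⋯ |A (K - 1)| / K ^ 4`, unless there is an obvious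
obstruction (no digit `d` in `A 0` such that the four numbers for `m₀ + d` are prime to `g`); the number of the `m = m₀ + t` with these
`t` for which the four numbers are primes is at most `C V |A 0| ⋯ |A (K - 1)|`. Here `V` is the product of `1 - ν (l) / l` over the
primes `l ≤ g ^ K`, where `ν (l)` is the number of the `m` modulo `l` such that `l` divides one of the four numbers, the expected order.
The constants do not depend on `p`, `q`, `m₀` and the sets `A i`.
-/

set_option autoImplicit false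

namespace Pool.Agent.Results.MP_739ba1_nt.FourAlmostPrimes

open Filter Finset
open Pool.Agent.Q315.RD Pool.Agent.Q48.RD

/-- The four numbers `p ^ 2 + m`, `q ^ 2 - m`, `p ^ 2 + m + 6`, `q ^ 2 - m - 6` have the property `Q`. -/
def Four (p q : ℕ) (Q : ℕ → Prop) (m : ℕ) : Prop :=
  Q (p ^ 2 + m) ∧ Q (q ^ 2 - m) ∧ Q (p ^ 2 + m + 6) ∧ Q (q ^ 2 - (m + 6))

/-- The product of `1 - ν (l) / l` over the primes `l ≤ y`, `ν (l)` the number of the zeros modulo `l` of the product of the four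
polynomials `p ^ 2 + X`, `p ^ 2 + 6 + X`, `q ^ 2 - X`, `q ^ 2 - 6 - X`. -/
noncomputable def V (p q y : ℕ) : ℝ := endsV ![0, 6] (p ^ 2) (q ^ 2) y

lemma four_iff (p q : ℕ) (Q : ℕ → Prop) (m : ℕ) : AtEnds ![0, 6] (p ^ 2) (q ^ 2) Q m ↔ Four p q Q m := by
  unfold AtEnds Four
  rw [Fin.forall_fin_two]
  simp only [Matrix.cons_val_zero, Matrix.cons_val_one, Matrix.cons_val_fin_one, Nat.add_zero]
  tauto

lemma adm {p q : ℕ} (hp : p.Prime) (hq : q.Prime) (h5 : 5 ≤ p) (hpq : p < q) : AdmZ (endsA 2) (endsB ![0, 6] (p ^ 2) (q ^ 2)) := by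
  apply ends_adm
  intro l hl hl4
  have hl2 := hl.two_le
  have h3 : l = 2 ∨ l = 3 := by
    by_contra hcon
    have : l = 4 := by omega
    subst this
    revert hl
    norm_num
  have hndvd : ∀ s : ℕ, s.Prime → 5 ≤ s → ¬ l ∣ s := by
    intro s hs hs5 hls
    have := (Nat.prime_dvd_prime_iff_eq hl hs).1 hls
    omega
  have hpl := hndvd p hp h5
  have hql := hndvd q hq (by omega)
  have h6 : l ∣ 6 := by rcases h3 with rfl | rfl <;> norm_num
  have h6z : (l : ℤ) ∣ 6 := by exact_mod_cast Int.natCast_dvd_natCast.2 h6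
  have hp2 : ¬ (l : ℤ) ∣ (p : ℤ) ^ 2 := by
    intro h
    have h7 : l ∣ p ^ 2 := by exact_mod_cast h
    exact hpl (hl.dvd_of_dvd_pow h7)
  have hq2 : ¬ (l : ℤ) ∣ (q : ℤ) ^ 2 := by
    intro h
    have h7 : l ∣ q ^ 2 := by exact_mod_cast h
    exact hql (hl.dvd_of_dvd_pow h7)
  refine ⟨0, fun j => ?_⟩
  push_cast
  fin_cases j
  · simp only [Fin.zero_eta, Matrix.cons_val_zero, Nat.cast_zero, add_zero, sub_zero]
    exact ⟨hp2, hq2⟩
  · simp only [Fin.mk_one, Matrix.cons_val_one, Matrix.cons_val_fin_one, add_zero, sub_zero]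
    push_cast
    exact ⟨fun h => hp2 ((dvd_add_left h6z).1 h), fun h => hq2 ((dvd_sub_left h6z).1 h)⟩

/-- **Four almost primes between the squares of two primes, at symmetric positions with restricted digits.** -/
theorem result (E : ℕ) :
    ∃ c : ℝ, 0 < c ∧ ∃ r₀ : ℕ, 2 ≤ r₀ ∧ ∀ r : ℕ, r₀ ≤ r → ∀ g : ℕ, 2 ≤ g → ∃ κ C : ℝ, 0 < κ ∧ 0 < C ∧
      ∀ᶠ K : ℕ in atTop, ∀ p q m₀ : ℕ, p.Prime → q.Prime → 5 ≤ p → p < q → q ^ 2 ≤ g ^ (E * K) → 1 ≤ m₀ →
        p ^ 2 + 2 * (m₀ + g ^ K + 6) ≤ q ^ 2 → ∀ A : ℕ → Finset ℕ, Rich c g K A →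
          ((∃ d ∈ A 0, Four p q (fun n => n.Coprime g) (m₀ + d)) →
            κ * V p q (g ^ K) * choices K A ≤ count g K A (fun t => Four p q (AlmostPrime (g ^ K) r) (m₀ + t)) ∧
            κ * choices K A / (K : ℝ) ^ 4 ≤ count g K A (fun t => Four p q (AlmostPrime (g ^ K) r) (m₀ + t))) ∧
          (count g K A (fun t => Four p q Nat.Prime (m₀ + t)) : ℝ) ≤ C * V p q (g ^ K) * choices K A := by
  obtain ⟨c, hc, r₀, hr₀, h⟩ := ends ![0, 6] E
  refine ⟨c, hc, r₀, hr₀, fun r hr g hg => ?_⟩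
  obtain ⟨κ, C, hκ, hC, h1⟩ := h r hr g hg
  refine ⟨κ, C, hκ, hC, ?_⟩
  filter_upwards [h1] with K hK
  intro p q m₀ hp hq h5 hpq hqE _ hm A hA
  have h2 := hK (p ^ 2) (q ^ 2) m₀ hqE (fun j => by
    fin_cases j
    · simp only [Fin.zero_eta, Matrix.cons_val_zero]; omega
    · simp only [Fin.mk_one, Matrix.cons_val_one, Matrix.cons_val_fin_one]; omega) (adm hp hq h5 hpq) A hA
  simp only [four_iff] at h2
  exact h2

end Pool.Agent.Results.MP_739ba1_nt.FourAlmostPrimes
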