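import Pool.Agent.Q44.Prog

/-!
# Brocard: progressions of almost primes from both ends of the interval between the squares of consecutive primes

Let `s ≥ 1`, `0 < θ`.  For EVERY large `n`, with `p = p_n` and `q = p_(n+1)` two consecutive primes, call `m` good if none
of the `2s` numbers `p² + im`, `q² - im`, `1 ≤ i ≤ s`, has a prime factor `≤ p ^ (1/r)`; for `sm < q² - p²` they lie between
the two squares (`s = 2`: four numbers).  In ALL intervals of length at least `p ^ θ` the numbers of the good `m` in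
windows follow the Poisson law and the gaps between the good `m` are exponentially distributed, and almost all elements
of an ARBITRARY set of good `m` (for instance of the `m` for which all `2s` numbers are prime) are regular points of
this set.
-/

set_option autoImplicit false

namespace Pool.Agent.Results.MP_739ba1_nt.ProgressionsFromBothEnds

open Finset
open Pool.Agent.Q25.UReg (Good V count pois PoissonLaw GapLaw N RightOrder ConstantDensity badScales Irregular)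
open Pool.Agent.Q44.Prog (co ct)

/-- the `n`-th prime, counted from `0` (`P 0 = 2`, `P 1 = 3`) -/
noncomputable def P (n : ℕ) : ℕ := Nat.nth Nat.Prime n

lemma P_prime (n : ℕ) : (P n).Prime := Nat.prime_nth_prime n

lemma le_P (n : ℕ) : n ≤ P n := Nat.le_nth fun h => absurd h Nat.infinite_setOfPred_prime

lemma P_succ_le (n : ℕ) : P (n + 1) ≤ 2 * P n := by
  obtain ⟨q, hq, h1, h2⟩ := Nat.exists_prime_lt_and_le_two_mul (P n) (P_prime n).ne_zero
  refine le_trans ?_ h2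
  have h6 : Nat.count Nat.Prime (P n + 1) = n + 1 := by
    rw [Nat.count_succ, if_pos (P_prime n)]
    unfold P
    rw [Nat.count_nth_of_infinite Nat.infinite_setOfPred_prime]
  have h5 : n + 1 ≤ Nat.count Nat.Prime q := by
    rw [← h6]
    exact Nat.count_monotone _ h1
  have h7 : n + 1 < Nat.count Nat.Prime (q + 1) := by
    rw [Nat.count_succ, if_pos hq]
    omega
  have h8 := Nat.nth_lt_of_lt_count h7
  unfold P
  omega

lemma np {s n : ℕ} (hn : 2 * s < n) (p : ℕ) (hp : p.Prime) (hps : p ≤ 2 * s) :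
    ¬ p ∣ P n ^ 2 * P (n + 1) ^ 2 := by
  intro h1
  have h5 := le_P n
  have h6 := le_P (n + 1)
  rcases (hp.dvd_mul).1 h1 with h2 | h2
  · have h3 := (Nat.prime_dvd_prime_iff_eq hp (P_prime n)).1 (hp.dvd_of_dvd_pow h2)
    omega
  · have h3 := (Nat.prime_dvd_prime_iff_eq hp (P_prime (n + 1))).1 (hp.dvd_of_dvd_pow h2)
    omega

lemma sq_le (n : ℕ) (hn : 4 ≤ n) : ((P n ^ 2 : ℕ) : ℝ) ≤ (P n : ℝ) ^ (3 : ℝ) ∧
    ((P (n + 1) ^ 2 : ℕ) : ℝ) ≤ (P n : ℝ) ^ (3 : ℝ) := by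
  rw [show (3 : ℝ) = ((3 : ℕ) : ℝ) by norm_num, Real.rpow_natCast]
  have h1 := le_P n
  have h2 := P_succ_le n
  have e : P n ^ 3 = P n * P n ^ 2 := by ring
  constructor
  · have h : P n ^ 2 ≤ P n ^ 3 := Nat.pow_le_pow_right (by omega) (by norm_num)
    exact_mod_cast h
  · have h : P (n + 1) ^ 2 ≤ P n ^ 3 := by
      have h3 : P (n + 1) ^ 2 ≤ (2 * P n) ^ 2 := Nat.pow_le_pow_left h2 2
      rw [e]
      nlinarith
    exact_mod_cast h

/-- **Brocard's conjecture: progressions of almost primes from both ends, for every pair of consecutive primes.** -/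
theorem result (s : ℕ) (hs : 1 ≤ s) (θ : ℝ) (hθ : 0 < θ) :
    (∀ (l₀ : ℕ) (x₀ ε : ℝ), 0 < ε → ∃ r₀ : ℕ, ∀ r : ℕ, r₀ ≤ r → ∃ n₀ : ℕ, ∀ n : ℕ, n₀ ≤ n →
      ∀ Z Y : ℕ, (P n : ℝ) ^ θ ≤ Y →
        PoissonLaw (co s) (ct s (P n ^ 2) (P (n + 1) ^ 2)) r (P n) Z Y x₀ ε ∧
        GapLaw (co s) (ct s (P n ^ 2) (P (n + 1) ^ 2)) r (P n) Z Y l₀ x₀ ε) ∧
    ∃ r₀ : ℕ, ∀ r : ℕ, r₀ ≤ r → ∀ ε : ℝ, 0 < ε → ∃ c : ℝ, 0 < c ∧ ∀ δ : ℝ, 0 < δ → ∃ B n₀ : ℕ,
      ∀ n : ℕ, n₀ ≤ n → ∀ w Y : ℕ, (P n : ℝ) ^ θ ≤ Y → Y ≤ P n → Y ≤ w →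
        ∀ A : Set ℕ, (∀ m ∈ A, Good (co s) (ct s (P n ^ 2) (P (n + 1) ^ 2)) r (P n) m) →
          (N (Irregular A (V (co s) (ct s (P n ^ 2) (P (n + 1) ^ 2)) r (P n)) c δ B Y) w (w + Y) : ℝ) ≤
            ε * (Y * V (co s) (ct s (P n ^ 2) (P (n + 1) ^ 2)) r (P n)) := by
  constructor
  · intro l₀ x₀ ε hε
    obtain ⟨r₀, h⟩ := Pool.Agent.Q44.Prog.laws s hs 3 1 θ (by norm_num) one_pos hθ l₀ x₀ ε hε
    refine ⟨r₀, fun r hr => ?_⟩
    obtain ⟨X₀, hX₀⟩ := h r hr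
    refine ⟨max X₀ (2 * s + 4), fun n hn Z Y hY => ?_⟩
    have hns : 2 * s + 4 ≤ n := (le_max_right _ _).trans hn
    have hP := le_P n
    have hsq := sq_le n (by omega)
    refine hX₀ (P n) (((le_max_left _ _).trans hn).trans hP) (P n ^ 2) (P (n + 1) ^ 2) (np (by omega))
      (Nat.one_le_pow _ _ (by omega)) hsq.1 hsq.2 ?_ Z Y hY
    rw [Real.rpow_one]
    have h1 : s * P n < P n ^ 2 + P (n + 1) ^ 2 := by
      have h2 : s * P n < P n * P n := Nat.mul_lt_mul_of_pos_right (by omega) (by omega)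
      nlinarith
    exact_mod_cast h1
  · obtain ⟨r₀, h⟩ := Pool.Agent.Q44.Prog.reg s hs 3 θ (by norm_num) hθ
    refine ⟨r₀, fun r hr ε hε => ?_⟩
    obtain ⟨c, hc, h1⟩ := h r hr ε hε
    refine ⟨c, hc, fun δ hδ => ?_⟩
    obtain ⟨B, X₀, hB⟩ := h1 δ hδ
    refine ⟨B, max X₀ (2 * s + 4), fun n hn w Y hXY hYX hYu A hA => ?_⟩
    have hns : 2 * s + 4 ≤ n := (le_max_right _ _).trans hn
    have hP := le_P n
    have hsq := sq_le n (by omega)
    exact hB (P n) (((le_max_left _ _).trans hn).trans hP) (P n ^ 2) (P (n + 1) ^ 2) (np (by omega))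
      (Nat.one_le_pow _ _ (by omega)) hsq.1 hsq.2 w Y hXY hYX hYu A hA

end Pool.Agent.Results.MP_739ba1_nt.ProgressionsFromBothEnds
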